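import Pool.Agent.Lib.MP_776403_ag.SD.V.PA
import Pool.Agent.Lib.MP_776403_ag.NS.E

/-!
# Stage 2 of THEOREM SD, part (C): the Chern roots are integers

From the congruence `(1 - T)^c h(T) = ∏ (1 - e^{-x_i u})`, `T = e^{-u}`, modulo `u^m` to an exact
factorization, by the numerical splitting theorem.
-/

set_option autoImplicit false

open PowerSeries

noncomputable section

namespace SDC

open Pool.Agent.Lib.MP_776403_ag.SD2 Pool.Agent.Lib.MP_776403_ag.SD2.GlueAux
  Pool.Agent.Lib.MP_776403_ag.SD2.SolAux Pool.Agent.Lib.MP_776403_ag.SD2.TdAux SDV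

namespace Aux

/-- `F(e^{-u})` for complex coefficients. -/
def evC : Polynomial ℂ →+* ℂ⟦X⟧ := Polynomial.eval₂RingHom (C : ℂ →+* ℂ⟦X⟧) (ex 1)

theorem evC_map (F : Polynomial ℤ) : evC (F.map (Int.castRingHom ℂ)) = ev F := by
  rw [evC, ev, Polynomial.coe_eval₂RingHom, Polynomial.coe_eval₂RingHom, Polynomial.eval₂_map]
  congr 1
  exact RingHom.ext_int _ _

theorem evC_const (F : Polynomial ℂ) : constantCoeff (evC F) = F.eval 1 := by
  have h : (constantCoeff (R := ℂ)).comp evC = Polynomial.evalRingHom 1 := by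
    apply Polynomial.ringHom_ext
    · intro a
      simp [evC]
    · simp [evC, constantCoeff_ex]
  have h1 := congrArg (fun f => f F) h
  simpa using h1

theorem evC_zero (m : ℕ) (F : Polynomial ℂ) (hd : F.natDegree < m) (h : X ^ m ∣ evC F) :
    F = 0 := by
  by_contra hF
  obtain ⟨q, hq, hq1⟩ := Polynomial.exists_eq_pow_rootMultiplicity_mul_and_not_dvd F hF 1
  set a := F.rootMultiplicity 1 with ha
  have hqne : q ≠ 0 := by
    rintro rfl
    exact hq1 (dvd_zero _)
  have ham : a < m := by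
    have h1 : F.natDegree = a + q.natDegree := by
      conv_lhs => rw [hq]
      rw [Polynomial.natDegree_mul (pow_ne_zero _ (Polynomial.X_sub_C_ne_zero 1)) hqne,
        Polynomial.natDegree_pow, Polynomial.natDegree_X_sub_C, mul_one]
    omega
  have h1 : evC (Polynomial.X - Polynomial.C 1) = - w := by
    rw [evC, Polynomial.coe_eval₂RingHom, Polynomial.eval₂_sub, Polynomial.eval₂_X,
      Polynomial.eval₂_C, w, map_one]
    ring
  have h2 : IsUnit (evC q) := by
    rw [isUnit_iff_constantCoeff, evC_const, isUnit_iff_ne_zero]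
    intro h4
    exact hq1 (Polynomial.dvd_iff_isRoot.mpr h4)
  rw [hq, map_mul, map_pow, h1, h2.dvd_mul_right, neg_pow,
    ((isUnit_one.neg).pow a).dvd_mul_left] at h
  have h6 := dvd_w_mul_iff a (m - a) 1
  rw [mul_one, Nat.add_sub_cancel' ham.le] at h6
  have h7 := (X_pow_dvd_iff.mp (h6.mp h)) 0 (by omega)
  simp at h7

/-- The derivative of `e^{-x u}`. -/
theorem deriv_ex (x : ℂ) : derivative ℂ (ex x) = C (-x) * ex x := by
  ext k
  rw [coeff_derivative, coeff_C_mul, coeff_ex, coeff_ex, Nat.factorial_succ]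
  have h1 : ((k.factorial : ℕ) : ℂ) ≠ 0 := by exact_mod_cast k.factorial_ne_zero
  have h2 : ((k : ℂ) + 1) ≠ 0 := by exact_mod_cast Nat.succ_ne_zero k
  push_cast
  field_simp
  ring

theorem deriv_evC (F : Polynomial ℂ) :
    derivative ℂ (evC F) = - evC (Polynomial.X * Polynomial.derivative F) := by
  induction F using Polynomial.induction_on' with
  | add p q hp hq =>
    rw [map_add, map_add, hp, hq, Polynomial.derivative_add, mul_add, map_add]
    ring
  | monomial n a =>
    have h1 : evC (Polynomial.monomial n a) = C a * ex n := by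
      rw [evC, Polynomial.coe_eval₂RingHom, Polynomial.eval₂_monomial, ex_pow, mul_one]
    have h2 : Polynomial.X * Polynomial.derivative (Polynomial.monomial n a) =
        Polynomial.C (n : ℂ) * Polynomial.monomial n a := by
      cases n with
      | zero => simp
      | succ n =>
        rw [Polynomial.derivative_monomial, Nat.succ_sub_one, Polynomial.X_mul_monomial,
          Polynomial.C_mul_monomial, mul_comm]
    have h3 : evC (Polynomial.C (n : ℂ)) = C (n : ℂ) := by
      rw [evC, Polynomial.coe_eval₂RingHom, Polynomial.eval₂_C]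
    rw [h2, map_mul, h3, h1, Derivation.leibniz, derivative_C, deriv_ex]
    simp only [smul_eq_mul, mul_zero, add_zero, map_neg]
    ring

theorem dvd_deriv (m : ℕ) (f : ℂ⟦X⟧) (h : X ^ m ∣ f) : X ^ (m - 1) ∣ derivative ℂ f := by
  rw [X_pow_dvd_iff] at h ⊢
  intro k hk
  rw [coeff_derivative, h (k + 1) (by omega), zero_mul]

theorem rescale_dvd (a : ℂ) (m : ℕ) (f : ℂ⟦X⟧) (h : X ^ m ∣ f) : X ^ m ∣ rescale a f := by
  rw [X_pow_dvd_iff] at h ⊢
  intro k hk
  rw [coeff_rescale, h k hk, mul_zero]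

theorem ex_mul_neg (x : ℂ) : ex x * ex (-x) = 1 := by
  rw [ex_mul, add_neg_cancel, ex_zero]

theorem ex_unit (x : ℂ) : IsUnit (ex x) := by
  rw [isUnit_iff_constantCoeff, constantCoeff_ex]
  exact isUnit_one

theorem natDegree_X_mul_deriv (p : Polynomial ℂ) :
    (Polynomial.X * Polynomial.derivative p).natDegree ≤ p.natDegree := by
  rw [Polynomial.natDegree_le_iff_coeff_eq_zero]
  intro n hn
  cases n with
  | zero => simp
  | succ n =>
    rw [Polynomial.coeff_X_mul, Polynomial.coeff_derivative,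
      Polynomial.coeff_eq_zero_of_natDegree_lt hn, zero_mul]

theorem rescale_ev (h : Polynomial ℤ) :
    rescale (-1 : ℂ) (ev h) = ev h.reverse * ex (-(h.natDegree : ℂ)) := by
  have h1 : rescale (-1 : ℂ) (ev h) =
      Polynomial.eval₂ (Int.castRingHom ℂ⟦X⟧) (ex (-1)) h := by
    have h2 : (rescale (-1 : ℂ)).comp ev =
        Polynomial.eval₂RingHom (Int.castRingHom ℂ⟦X⟧) (ex (-1)) := by
      apply Polynomial.ringHom_ext
      · intro a
        simp
      · simp only [RingHom.coe_comp, Function.comp_apply, ev_X, rescale_ex]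
        rw [Polynomial.coe_eval₂RingHom, Polynomial.eval₂_X]
        norm_num
    have h3 := congrArg (fun f => f h) h2
    simpa using h3
  let _ : Invertible (ex (-1 : ℂ)) := ⟨ex 1, ex_mul_neg 1, by rw [mul_comm]; exact ex_mul_neg 1⟩
  have h4 := Polynomial.eval₂_reverse_mul_pow (Int.castRingHom ℂ⟦X⟧) (ex (-1 : ℂ)) h
  rw [h1, ← h4, ex_pow]
  have h5 : (⅟(ex (-1 : ℂ))) = ex 1 := rfl
  rw [h5, mul_neg, mul_one]
  rfl

/-- The sum of the roots. -/
theorem sum_roots (c s m : ℕ) (h : Polynomial ℤ) (x : Fin c → ℂ) (h0 : h.coeff 0 ≠ 0)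
    (hs : h.natDegree = s) (hm : c + 2 * s + 2 ≤ m)
    (hV : X ^ m ∣ ev ((1 - Polynomial.X) ^ c * h) - ∏ i, (1 - ex (x i))) :
    ∑ i, x i = ((c + s : ℕ) : ℂ) := by
  classical
  set p1 : ℂ := ∑ i, x i with hp1
  rw [map_mul, map_pow, ev_one_sub] at hV
  have hV2 := rescale_dvd (-1) m _ hV
  have hG : rescale (-1 : ℂ) (∏ i, (1 - ex (x i))) =
      (-1) ^ c * (ex (-p1) * ∏ i, (1 - ex (x i))) := by
    rw [map_prod]
    have h1 : ∀ i, rescale (-1 : ℂ) (1 - ex (x i)) = (-1) * (ex (-(x i)) * (1 - ex (x i))) := by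
      intro i
      rw [map_sub, map_one, rescale_ex, neg_one_mul (x i)]
      have := ex_mul_neg (x i)
      linear_combination (-1 : ℂ⟦X⟧) * this
    rw [Finset.prod_congr rfl fun i _ => h1 i, Finset.prod_mul_distrib, Finset.prod_const,
      Finset.card_univ, Fintype.card_fin, Finset.prod_mul_distrib, ex_sum (fun i => -(x i)),
      Finset.sum_neg_distrib]
  have hw : rescale (-1 : ℂ) w = (-1) * (ex (-1) * w) := by
    rw [w, map_sub, map_one, rescale_ex, neg_one_mul]
    have := ex_mul_neg 1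
    linear_combination (-1 : ℂ⟦X⟧) * this
  have hF : rescale (-1 : ℂ) (w ^ c * ev h) =
      (-1) ^ c * (ex (-((c + s : ℕ) : ℂ)) * (w ^ c * ev h.reverse)) := by
    rw [map_mul, map_pow, hw, rescale_ev, hs, mul_pow, mul_pow, ex_pow]
    have h1 : ex (-((c + s : ℕ) : ℂ)) = ex ((c : ℂ) * -1) * ex (-(s : ℂ)) := by
      rw [ex_mul]
      congr 1
      push_cast
      ring
    rw [h1]
    ring
  rw [map_sub, hG, hF, ← mul_sub, ((isUnit_one.neg).pow c).dvd_mul_left] at hV2
  have hV3 : X ^ m ∣ w ^ c * (ex (-((c + s : ℕ) : ℂ)) * ev h.reverse - ex (-p1) * ev h) := by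
    have h1 : w ^ c * (ex (-((c + s : ℕ) : ℂ)) * ev h.reverse - ex (-p1) * ev h) =
        (ex (-((c + s : ℕ) : ℂ)) * (w ^ c * ev h.reverse) - ex (-p1) * ∏ i, (1 - ex (x i))) -
          ex (-p1) * (w ^ c * ev h - ∏ i, (1 - ex (x i))) := by ring
    rw [h1]
    exact dvd_sub hV2 (dvd_mul_of_dvd_right hV _)
  have hcm : m = c + (m - c) := by omega
  rw [hcm, dvd_w_mul_iff] at hV3
  set M := m - c with hM
  set th : ℂ := p1 - ((c + s : ℕ) : ℂ) with hth
  have hV4 : X ^ M ∣ ev h.reverse - ex (-th) * ev h := by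
    have h1 := dvd_mul_of_dvd_right hV3 (ex ((c + s : ℕ) : ℂ))
    have h2 : ex ((c + s : ℕ) : ℂ) * (ex (-((c + s : ℕ) : ℂ)) * ev h.reverse -
        ex (-p1) * ev h) = ev h.reverse - ex (-th) * ev h := by
      have h3 := ex_mul_neg ((c + s : ℕ) : ℂ)
      have h4 : ex ((c + s : ℕ) : ℂ) * ex (-p1) = ex (-th) := by
        rw [ex_mul, hth]
        congr 1
        ring
      rw [← h4]
      linear_combination (ev h.reverse) * h3
    rwa [h2] at h1
  have hV5 := dvd_deriv M _ hV4
  set hC := h.map (Int.castRingHom ℂ) with hhC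
  set hR := h.reverse.map (Int.castRingHom ℂ) with hhR
  rw [← evC_map h.reverse, ← evC_map h, ← hhC, ← hhR, map_sub, deriv_evC, Derivation.leibniz,
    deriv_evC, deriv_ex, smul_eq_mul, smul_eq_mul, neg_neg] at hV5
  rw [← evC_map h.reverse, ← evC_map h, ← hhC, ← hhR] at hV4
  -- the polynomial relation
  set K : Polynomial ℂ := -(Polynomial.X * Polynomial.derivative hR * hC) -
    Polynomial.C th * hR * hC + hR * (Polynomial.X * Polynomial.derivative hC) with hK
  have hth' : evC (Polynomial.C th) = C th := by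
    rw [evC, Polynomial.coe_eval₂RingHom, Polynomial.eval₂_C]
  have hKd : X ^ (M - 1) ∣ evC K := by
    have h1 : evC K = (-evC (Polynomial.X * Polynomial.derivative hR) -
        (ex (-th) * -evC (Polynomial.X * Polynomial.derivative hC) +
          evC hC * (C th * ex (-th)))) * evC hC -
        (evC hR - ex (-th) * evC hC) * (C th * evC hC -
          evC (Polynomial.X * Polynomial.derivative hC)) := by
      rw [hK]
      simp only [map_add, map_sub, map_neg, map_mul, hth']
      ring
    rw [h1]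
    refine dvd_sub (dvd_mul_of_dvd_left hV5 _) (dvd_mul_of_dvd_left ?_ _)
    exact (pow_dvd_pow _ (by omega)).trans hV4
  have hdC : hC.natDegree ≤ s := by
    rw [← hs]; exact Polynomial.natDegree_map_le
  have hdR : hR.natDegree ≤ s := by
    refine Polynomial.natDegree_map_le.trans ?_
    rw [← hs]; exact Polynomial.reverse_natDegree_le h
  have hKdeg : K.natDegree ≤ 2 * s := by
    have h1 := natDegree_X_mul_deriv hR
    have h2 := natDegree_X_mul_deriv hC
    rw [hK]
    refine (Polynomial.natDegree_add_le _ _).trans (max_le ?_ ?_)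
    · refine (Polynomial.natDegree_sub_le _ _).trans (max_le ?_ ?_)
      · rw [Polynomial.natDegree_neg]
        refine Polynomial.natDegree_mul_le.trans ?_
        omega
      · refine Polynomial.natDegree_mul_le.trans ?_
        have h3 := Polynomial.natDegree_C_mul_le th hR
        omega
    · refine Polynomial.natDegree_mul_le.trans ?_
      omega
  have hK0 := evC_zero (M - 1) K (by omega) hKd
  have hc0 := congrArg (fun p => Polynomial.coeff p 0) hK0
  rw [hK] at hc0
  simp only [Polynomial.coeff_add, Polynomial.coeff_sub, Polynomial.coeff_neg,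
    Polynomial.mul_coeff_zero, Polynomial.coeff_X_zero, Polynomial.coeff_C_zero,
    Polynomial.coeff_zero, zero_mul, mul_zero, neg_zero, zero_sub, add_zero] at hc0
  have hR0 : hR.coeff 0 ≠ 0 := by
    rw [hhR, Polynomial.coeff_map, Polynomial.coeff_zero_reverse]
    have h1 : h.leadingCoeff ≠ 0 := by
      intro h2
      rw [Polynomial.leadingCoeff_eq_zero] at h2
      rw [h2] at h0
      simp at h0
    simpa using h1
  have hC0 : hC.coeff 0 ≠ 0 := by
    rw [hhC, Polynomial.coeff_map]
    simpa using h0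
  have hth0 : th = 0 := by
    rcases mul_eq_zero.mp (neg_eq_zero.mp hc0) with h1 | h1
    · rcases mul_eq_zero.mp h1 with h2 | h2
      · exact h2
      · exact absurd h2 hR0
    · exact absurd h1 hC0
  rw [hth, sub_eq_zero] at hth0
  exact hth0

end Aux

open Aux

open Pool.Agent.Lib.MP_776403_ag.NS in
/-- Values of polynomials at the subset sums. -/
theorem Lf_poly (c m : ℕ) (P : Polynomial ℤ) (x : Fin c → ℂ)
    (hV : X ^ m ∣ ev P - ∏ i, (1 - Pool.Agent.Lib.MP_776403_ag.SD2.ex (x i)))
    (q : Polynomial ℂ) (hq : q.natDegree < m) :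
    Lf x (fun v => q.eval v) = ∑ i ∈ P.support, (P.coeff i : ℂ) * q.eval (i : ℂ) := by
  classical
  have hk : ∀ k, k < m → ∑ S : Finset (Fin c), (-1 : ℂ) ^ S.card * (∑ i ∈ S, x i) ^ k =
      ∑ i ∈ P.support, (P.coeff i : ℂ) * (i : ℂ) ^ k := by
    intro k hk
    have h1 := (X_pow_dvd_iff.mp hV) k hk
    have h2 : ∏ i, (1 - Pool.Agent.Lib.MP_776403_ag.SD2.ex (x i)) =
        ∑ S : Finset (Fin c), (-1) ^ S.card *
          Pool.Agent.Lib.MP_776403_ag.SD2.ex (∑ i ∈ S, x i) := by
      have h3 : ∀ i, (1 - Pool.Agent.Lib.MP_776403_ag.SD2.ex (x i)) =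
          1 + (-1) * Pool.Agent.Lib.MP_776403_ag.SD2.ex (x i) := by intro i; ring
      rw [Finset.prod_congr rfl fun i _ => h3 i, Finset.prod_one_add, Finset.powerset_univ]
      apply Finset.sum_congr rfl
      intro S _
      rw [Finset.prod_mul_distrib, Finset.prod_const,
        Pool.Agent.Lib.MP_776403_ag.SD2.SolAux.ex_sum]
    rw [map_sub, h2, ← tau_ev, (pT2 P).1 k, map_sum, sub_eq_zero] at h1
    have h4 : ∀ S : Finset (Fin c), coeff k ((-1) ^ S.card *
        Pool.Agent.Lib.MP_776403_ag.SD2.ex (∑ i ∈ S, x i)) =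
        ((-1) ^ k / (k.factorial : ℂ)) * ((-1 : ℂ) ^ S.card * (∑ i ∈ S, x i) ^ k) := by
      intro S
      have h5 : ((-1 : ℂ⟦X⟧)) ^ S.card = C ((-1 : ℂ) ^ S.card) := by simp
      rw [h5, coeff_C_mul, coeff_ex, neg_pow]
      ring
    have h6 : ∀ i : ℕ, (P.coeff i : ℂ) * ((-(i : ℂ)) ^ k / (k.factorial : ℂ)) =
        ((-1) ^ k / (k.factorial : ℂ)) * ((P.coeff i : ℂ) * (i : ℂ) ^ k) := by
      intro i
      rw [neg_pow]
      ring
    rw [Finset.sum_congr rfl fun S _ => h4 S, Finset.sum_congr rfl fun i _ => h6 i,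
      ← Finset.mul_sum, ← Finset.mul_sum] at h1
    have h7 : ((-1 : ℂ) ^ k / (k.factorial : ℂ)) ≠ 0 := by
      apply div_ne_zero (pow_ne_zero _ (by norm_num))
      exact_mod_cast k.factorial_ne_zero
    exact (mul_left_cancel₀ h7 h1).symm
  unfold Lf
  simp only [Polynomial.eval_eq_sum_range]
  simp only [Finset.mul_sum]
  rw [Finset.sum_comm, Finset.sum_comm (s := P.support)]
  apply Finset.sum_congr rfl
  intro k hk'
  have hkm : k < m := by
    have := Finset.mem_range.mp hk'
    omega
  have h1 : ∀ S : Finset (Fin c), (-1 : ℂ) ^ S.card * (q.coeff k * (∑ i ∈ S, x i) ^ k) =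
      q.coeff k * ((-1 : ℂ) ^ S.card * (∑ i ∈ S, x i) ^ k) := by intro S; ring
  have h2 : ∀ i : ℕ, (P.coeff i : ℂ) * (q.coeff k * (i : ℂ) ^ k) =
      q.coeff k * ((P.coeff i : ℂ) * (i : ℂ) ^ k) := by intro i; ring
  rw [Finset.sum_congr rfl fun S _ => h1 S, Finset.sum_congr rfl fun i _ => h2 i,
    ← Finset.mul_sum, ← Finset.mul_sum, hk k hkm]

open Pool.Agent.Lib.MP_776403_ag.NS in
/-- Part (C): the Chern roots are integers and the factorization is exact. -/
theorem chernInt (c s m : ℕ) (h : Polynomial ℤ) (x : Fin c → ℂ) (h0 : h.coeff 0 = 1)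
    (h1 : h.coeff 1 = c) (hs : h.natDegree = s) (he : h.eval 1 ≠ 0) (ha3 : 3 ≤ c + s)
    (hm : c + 2 * s + 2 ≤ m) (hm2 : c + s + 2 ^ c ≤ m + 5)
    (hV : (PowerSeries.X : PowerSeries ℂ) ^ m ∣
      tau ((1 - Polynomial.X) ^ c * h) - gx x) :
    ∃ d : Fin c → ℕ, (∀ i, 2 ≤ d i) ∧ (∀ i, x i = d i) ∧ ∑ i, d i = c + s ∧
      (1 - Polynomial.X : Polynomial ℤ) ^ c * h = ∏ i, (1 - Polynomial.X ^ (d i)) := by
  classical
  have hprod := pPr c m h x (by omega) hV
  have hx : ∀ i, x i ≠ 0 := by
    intro i hi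
    rw [Finset.prod_eq_zero (Finset.mem_univ i) hi] at hprod
    exact he (by exact_mod_cast hprod.symm)
  rw [tau_ev, gx_eq] at hV
  have hsum := sum_roots c s m h x (by rw [h0]; exact one_ne_zero) hs hm hV
  set P : Polynomial ℤ := (1 - Polynomial.X) ^ c * h with hP
  obtain ⟨N, rfl⟩ : ∃ N, m = N + 1 := ⟨m - 1, by omega⟩
  have hLf := fun q hq => Lf_poly c (N + 1) P x hV q hq
  have hPdeg : P.natDegree ≤ c + s := by
    rw [hP]
    refine Polynomial.natDegree_mul_le.trans ?_
    have h2 : ((1 - Polynomial.X : Polynomial ℤ) ^ c).natDegree ≤ c := by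
      refine (Polynomial.natDegree_pow_le).trans ?_
      have h3 : (1 - Polynomial.X : Polynomial ℤ).natDegree ≤ 1 := by
        refine (Polynomial.natDegree_sub_le _ _).trans (max_le ?_ ?_)
        · rw [Polynomial.natDegree_one]; omega
        · rw [Polynomial.natDegree_X]
      calc c * (1 - Polynomial.X : Polynomial ℤ).natDegree ≤ c * 1 :=
            Nat.mul_le_mul_left _ h3
        _ = c := mul_one _
    omega
  have hP0 : P.coeff 0 = 1 := by
    rw [hP, Polynomial.mul_coeff_zero, h0, mul_one, Polynomial.coeff_zero_eq_eval_zero]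
    simp
  have hP1 : P.coeff 1 = 0 := by
    have h2 : ((1 - Polynomial.X : Polynomial ℤ) ^ c).coeff 1 = -c := by
      have h3 : (1 - Polynomial.X : Polynomial ℤ) ^ c =
          ((1 + Polynomial.X) ^ c : Polynomial ℤ).comp (-Polynomial.X) := by
        rw [Polynomial.pow_comp, Polynomial.add_comp, Polynomial.one_comp, Polynomial.X_comp,
          ← sub_eq_add_neg]
      have h4 := coeff_ng ((1 + Polynomial.X) ^ c : Polynomial ℤ) 1
      rw [ng, ← h3, add_comm (1 : Polynomial ℤ), Polynomial.coeff_X_add_one_pow,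
        Nat.choose_one_right] at h4
      rw [h4]
      simp
    have h3 : ((1 - Polynomial.X : Polynomial ℤ) ^ c).coeff 0 = 1 := by
      rw [Polynomial.coeff_zero_eq_eval_zero]; simp
    rw [hP, Polynomial.mul_coeff_one, h2, h3, h0, h1]
    ring
  have hrr : ∀ M : ℕ, Lf x (fun v => (bq M N).eval v) =
      ∑ i ∈ P.support, (P.coeff i : ℂ) * (bq M N).eval (i : ℂ) := by
    intro M
    exact hLf _ (Nat.lt_succ_of_le (bq_natDegree M N))
  have hsupp : ∀ i ∈ P.support, i ≤ c + s := fun i hi =>
    (Polynomial.le_natDegree_of_mem_supp i hi).trans hPdeg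
  have hNat := main c N (c + s) x hx hsum ha3 (by omega) (by omega)
  have hm1 : ∀ k : ℕ, 1 ≤ k → (c + s) + k ≤ N → rrPoly N x (-(k : ℂ)) = 0 := by
    intro k hk1 hk2
    have h2 : rrPoly N x (-(k : ℂ)) = Lf x (fun v => (bq (N - k) N).eval v) := by
      unfold rrPoly Lf
      apply Finset.sum_congr rfl
      intro S _
      beta_reduce
      rw [bq_eval]
      congr 2
      rw [Nat.cast_sub (by omega : k ≤ N)]
      ring
    rw [h2, hrr]
    apply Finset.sum_eq_zero
    intro i hi
    have h3 := hsupp i hi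
    rw [bq_eval_nat _ _ _ (by omega), Nat.choose_eq_zero_of_lt (by omega), Nat.cast_zero,
      mul_zero]
  have hm0 : rrPoly N x 0 = 1 := by
    have h2 : rrPoly N x 0 = Lf x (fun v => (bq N N).eval v) := by
      unfold rrPoly Lf
      apply Finset.sum_congr rfl
      intro S _
      beta_reduce
      rw [bq_eval]
      congr 2
      ring
    rw [h2, hrr, Finset.sum_eq_single 0]
    · rw [hP0, bq_eval_nat _ _ _ (Nat.zero_le _), Nat.sub_zero, Nat.choose_self]
      norm_num
    · intro i hi hi0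
      have h3 := hsupp i hi
      rw [bq_eval_nat _ _ _ (by omega), Nat.choose_eq_zero_of_lt (by omega), Nat.cast_zero,
        mul_zero]
    · intro h3
      rw [Polynomial.notMem_support_iff.mp h3]
      simp
  have hm1' : rrPoly N x 1 = N + 1 := by
    have h2 : rrPoly N x 1 = Lf x (fun v => (bq (N + 1) N).eval v) := by
      unfold rrPoly Lf
      apply Finset.sum_congr rfl
      intro S _
      beta_reduce
      rw [bq_eval]
      congr 2
      push_cast
      ring
    rw [h2, hrr, Finset.sum_eq_single 0]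
    · rw [hP0, bq_eval_nat _ _ _ (Nat.zero_le _), Nat.sub_zero, Nat.choose_succ_self_right]
      push_cast
      ring
    · intro i hi hi0
      have h3 := hsupp i hi
      rcases Nat.lt_or_ge i 2 with h4 | h4
      · have h5 : i = 1 := by omega
        rw [h5, hP1]
        simp
      · rw [bq_eval_nat _ _ _ (by omega), Nat.choose_eq_zero_of_lt (by omega), Nat.cast_zero,
          mul_zero]
    · intro h3
      rw [Polynomial.notMem_support_iff.mp h3]
      simp
  have hd := hNat hm1 hm0 hm1'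
  choose d hd2 hxd using hd
  have hsumd : ∑ i, d i = c + s := by
    have h2 : ((∑ i, d i : ℕ) : ℂ) = ((c + s : ℕ) : ℂ) := by
      rw [← hsum]
      push_cast
      exact Finset.sum_congr rfl fun i _ => (hxd i).symm
    exact_mod_cast h2
  refine ⟨d, hd2, hxd, hsumd, ?_⟩
  have h2 : ∏ i, (1 - Pool.Agent.Lib.MP_776403_ag.SD2.ex (x i)) =
      ev (∏ i, (1 - Polynomial.X ^ (d i))) := by
    rw [map_prod]
    apply Finset.prod_congr rfl
    intro i _
    rw [map_sub, map_one, ev_X_pow, hxd i]
  rw [h2, ← map_sub, ← evC_map] at hV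
  have h3 := evC_zero (N + 1) _ (by
    refine lt_of_le_of_lt Polynomial.natDegree_map_le ?_
    refine lt_of_le_of_lt (Polynomial.natDegree_sub_le _ _) (max_lt (by omega) ?_)
    refine lt_of_le_of_lt (Polynomial.natDegree_prod_le _ _) ?_
    have h4 : ∑ i, (1 - Polynomial.X ^ (d i) : Polynomial ℤ).natDegree ≤ ∑ i, d i := by
      apply Finset.sum_le_sum
      intro i _
      refine (Polynomial.natDegree_sub_le _ _).trans (max_le ?_ ?_)
      · rw [Polynomial.natDegree_one]; omega
      · rw [Polynomial.natDegree_X_pow]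
    omega) hV
  have h4 := (Polynomial.map_eq_zero_iff (RingHom.injective_int (Int.castRingHom ℂ))).mp h3
  exact sub_eq_zero.mp h4

end SDC
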